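import Pool.Agent.Y6.F.Defs2

/-! Statements of the steps (Euler equations with a skew-adjoint Fourier multiplier of finite
order). -/

open Set Filter Topology
open scoped ComplexConjugate

set_option autoImplicit false

namespace Pool.Agent.Y6.F

open Pool.Agent.Y6.M (qd mq Kz Ker Adm Dat TSol Wt KSol cX cY Uth εc x0 Mains MDat Z3 C3 Coef dt cr
  cj kc nsq len adv leray Kop IsField IsSol energy enstr Md hs br Frame cK sgz)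

/-! ### The concrete system -/

/-- levels and signs -/
def S_LV : Prop :=
  (∀ n, lvM (Xm n) = n ∧ lvM (br (Xm n)) = n ∧ lvM (Ym n) = n + 1 ∧ lvM (br (Ym n)) = n + 1) ∧
  (∀ n, σM (Xm n) = 0 ∧ σM (br (Xm n)) = 0 ∧ σM (Ym n) = 0 ∧ σM (br (Ym n)) = 0) ∧
  (∀ i, σM i = 0 → ∃ n, i = Xm n ∨ i = br (Xm n) ∨ i = Ym n ∨ i = br (Ym n)) ∧
  (∀ i, σM i ≠ 0 → lvM i = cd i ∧ σM i ^ 2 = 1) ∧
  (∀ i, br (br i) = i ∧ lvM (br i) = lvM i ∧ σM (br i) = -σM i) ∧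
  (∀ m, {i | lvM i ≤ m}.Finite) ∧
  (∀ i, σM i = 0 → αM (lvM i) ^ 2 ≤ NM i ∧ NM i ≤ 2 * αM (lvM i) ^ 2) ∧
  Function.Injective Xm ∧ Function.Injective Ym ∧
  (∀ n m, kx n ≠ -kx m) ∧ ∀ n m, kx n + kx (n + 1) ≠ -(kx m + kx (m + 1))

/-- the codes -/
def S_CODE : Prop :=
  (∀ i : Md, ln i ^ 4 ≤ (cd i : ℝ) ∧ (cd i : ℝ) ≤ 108 * ln i ^ 4) ∧
  (∀ i j : Md, cd i = cd j → j = i ∨ j = br i) ∧ (∀ i, cd (br i) = cd i) ∧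
  (∀ i : Md, nsq i.1.1 ≤ cd i) ∧ (∀ i : Md, 1 ≤ ln i ∧ ln i ^ 2 = (nsq i.1.1 : ℝ)) ∧
  ∀ (i a b : Md), a.1.1 + b.1.1 = i.1.1 → ln i ≤ ln a + ln b ∧ ln a ≤ ln i + ln b ∧
    ln b ≤ ln i + ln a

/-- sums of frequencies of the chain, first part -/
def S_SUMSa : Prop :=
  (∀ n a b, σM a = 0 → σM b = 0 → a.1.1 + b.1.1 = kx n →
    (a = Ym n ∧ b = br (Xm (n + 1))) ∨ (b = Ym n ∧ a = br (Xm (n + 1))) ∨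
      ∃ m, n = m + 1 ∧ ((a = Ym m ∧ b = br (Xm m)) ∨ (b = Ym m ∧ a = br (Xm m)))) ∧
  (∀ n a b, σM a = 0 → σM b = 0 → a.1.1 + b.1.1 = kx n + kx (n + 1) →
    (a = Xm n ∧ b = Xm (n + 1)) ∨ (b = Xm n ∧ a = Xm (n + 1))) ∧
  ∀ i a : Md, σM i = 0 → σM a = 0 → i.1.1 ≠ a.1.1 → (lvM i : ℤ) ≤ nsq (i.1.1 - a.1.1) + 1

/-- sums of frequencies of the chain, second part -/
def S_SUMSb : Prop :=
  (∀ k : Z3, k ≠ 0 → {p : Md × Md | σM p.1 = 0 ∧ σM p.2 = 0 ∧ p.1.1.1 + p.2.1.1 = k}.Finite ∧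
    {p : Md × Md | σM p.1 = 0 ∧ σM p.2 = 0 ∧ p.1.1.1 + p.2.1.1 = k}.ncard ≤ 32) ∧
  (∀ i a b : Md, σM a = 0 → σM b = 0 → a.1.1 + b.1.1 = i.1.1 →
    (ln a ≤ 4 * ln i ∧ ln b ≤ 4 * ln i) ∨
      ∃ n, ln i = αM n ∧ αM (n + 1) ≤ ln a ∧ αM (n + 1) ≤ ln b) ∧
  ∀ i a : Md, σM i = 0 → σM a = 0 → i.1.1 ≠ a.1.1 → 4 * len (i.1.1 - a.1.1) < ln i →
    ∃ n, lvM i = n + 1 ∧ lvM a = n + 1 ∧ len (i.1.1 - a.1.1) = αM n ∧ i.2 ≠ a.2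

/-- sums of frequencies of the chain -/
def S_SUMS : Prop := S_SUMSa ∧ S_SUMSb

/-- vector identities -/
def S_VEC : Prop := ∀ h, Frame h →
  (∀ n, ‖GM h n‖ = 2 * Real.pi * (1 / (2 * √2)) * ((αM n + αM (n + 1)) / ρM n - 1)) ∧
  (∀ i a b : Md, ‖cK h i a b‖ ≤ 2 * Real.pi * ln i ∧ ‖cK h i a b‖ ≤ 2 * Real.pi * ln b) ∧
  ∀ i a b : Md, a.2 ≠ i.2 → b.1.1 + a.1.1 = i.1.1 →
    ‖cK h i b a‖ * (ln a + ln i) ≤ 2 * Real.pi * ln a * ln b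

/-- the coefficients of the chain -/
def S_CHN : Prop := S_VEC → ∀ h, Frame h → ChnF αM (GM h) bM dM

/-- the kernel -/
def S_KERM : Prop := S_LV → S_CODE → S_SUMS → ∀ h, Frame h → Ker lvM br σM (cK h)

/-- the main modes -/
def S_TAB : Prop := S_LV → S_SUMS → ∀ h, Frame h → Mains lvM br σM (cK h) (GM h) bM dM Xm Ym

/-- the weights -/
def S_WTM : Prop := S_LV → S_CODE → ∀ h, Frame h → Wt lvM σM αM (cK h) NM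

/-- the data -/
def S_DATM : Prop := S_LV → Dat br σM vM ∧ MDat αM Xm Ym vM

/-- the detuning -/
def S_GAP : Prop := S_LV → S_CODE →
  (∀ i, σM i ≠ 0 → 10 ^ 60 * ln i ^ 16 ≤ |ωF i| ∧ |ωF i| ≤ 10 ^ 60 * 108 ^ 4 * ln i ^ 16) ∧
  ∀ (i : Md) (p : Md × Md), σM i ≠ 0 → p.1.1.1 + p.2.1.1 = i.1.1 → 0 < D0 i p →
    D0 i p ≤ |ωF p.1 + ωF p.2 - ωF i|

/-! ### Static estimates -/

/-- lattice sums -/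
def S_LAT : Prop :=
  (Summable (fun a : Md => (ln a ^ 4)⁻¹) ∧ ∑' a : Md, (ln a ^ 4)⁻¹ ≤ 1000) ∧
  (S_LV → Summable (fun a : Md => if σM a = 0 then (ln a)⁻¹ else 0) ∧
    ∑' a : Md, (if σM a = 0 then (ln a)⁻¹ else 0) ≤ 1)

/-- properties of the envelope -/
def S_ENV : Prop := (∀ M, Adq M →
  (∀ r s, 0 < r → r ≤ s → env M s ≤ env M r) ∧
  (∀ r, 1 ≤ r → env M (r / 2) ≤ r * env M r) ∧
  (∀ n r, αM n ≤ 8 * r → r ≤ 4 * αM n → env M r = M n) ∧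
  (∀ n r, 0 < r → r ≤ 4 * αM n → M n ≤ env M r) ∧
  (∀ r, 0 < env M r ∧ env M r ≤ 1)) ∧
  (∀ M M', Adq M → Adq M' → (∀ n, M n ≤ M' n) → ∀ r, 0 < r → env M r ≤ env M' r) ∧
  ∀ (k : ℕ) (C : ℝ), ∃ C', ∀ M, Adq M → (∀ n, αM n ^ k * M n ≤ C) →
    ∀ r, 1 ≤ r → r ^ k * env M r ≤ C'

/-- bound of the quadratic term -/
def S_RATE : Prop := S_LV → S_CODE → S_SUMS → S_VEC → S_LAT → S_ENV →
  ∀ h, Frame h → ∀ M, Adq M → ∀ i,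
    Summable (fun p : Md × Md => ‖cK h i p.1 p.2‖ * eF M p.1 * eF M p.2) ∧
    ∑' p : Md × Md, ‖cK h i p.1 p.2‖ * eF M p.1 * eF M p.2 ≤ rF M i

/-- contribution of the pairs of the type `j` -/
def S_ST (j : ℕ) : Prop := S_LV → S_CODE → S_SUMS → S_VEC → S_LAT → S_ENV →
  ∀ h, Frame h → ∀ M, Adq M → ∀ i, σM i ≠ 0 →
    Summable (fun p : Md × Md => if Ty i p = j then tm h M i p else 0) ∧
    ∑' p : Md × Md, (if Ty i p = j then tm h M i p else 0) ≤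
      (10 ^ 20)⁻¹ / 10 * (ln i ^ 7)⁻¹ * env M (ln i)

/-- perturbation of the main modes -/
def S_PRT : Prop := S_LV → S_CODE → S_SUMS → S_VEC → S_LAT → S_ENV →
  ∀ h, Frame h → ∀ M, Adq M → ∀ z : Md → ℂ, (∀ i, ‖z i‖ ≤ eF M i) → ∀ i, σM i = 0 →
    ‖qd (cK h) z i - mq σM (cK h) z i‖ ≤ κr αM (lvM i) * M (lvM i)

/-! ### Dynamics -/

/-- integration by parts in time -/
def S_IBP : Prop := ∀ (I : Type) (lv : I → ℕ) (bar : I → I) (σ : I → ℝ) (c : I → I → I → ℂ)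
  (S : ℕ → ℝ) (v : I → ℂ) (N : ℕ) (z : I → ℝ → ℂ), Ker lv bar σ c → Dat bar σ v →
  TSol S lv bar σ c v N z → ∀ θ ∈ Icc (0 : ℝ) 1, ∀ (e r : I → ℝ),
  (∀ a, ∀ s ∈ Icc 0 θ, ‖z a s‖ ≤ e a) → (∀ a, ∀ s ∈ Icc 0 θ, ‖qd c (fun b => z b s) a‖ ≤ r a) →
  ∀ i, σ i ≠ 0 → ∀ D : I × I → ℝ, (∀ p, c i p.1 p.2 ≠ 0 → 0 < D p →
    D p ≤ |S (lv p.1) * σ p.1 + S (lv p.2) * σ p.2 - S (lv i) * σ i|) →
  Summable (fun p : I × I => if 0 < D p then ‖c i p.1 p.2‖ / D p *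
    (2 * e p.1 * e p.2 + (r p.1 * e p.2 + e p.1 * r p.2)) else ‖c i p.1 p.2‖ * e p.1 * e p.2) →
  ∀ t ∈ Icc 0 θ, ‖z i t‖ ≤ ∑' p : I × I, if 0 < D p then ‖c i p.1 p.2‖ / D p *
    (2 * e p.1 * e p.2 + (r p.1 * e p.2 + e p.1 * r p.2)) else ‖c i p.1 p.2‖ * e p.1 * e p.2

/-- the chain of a solution -/
def xs (z : Md → ℝ → ℂ) (n : ℕ) : ℝ → ℂ := z (Xm n)

def ys (z : Md → ℝ → ℂ) (n : ℕ) : ℝ → ℂ := z (Ym n)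

/-- the sizes of the levels of a solution -/
noncomputable def Ms (z : Md → ℝ → ℂ) (t : ℝ) (n : ℕ) : ℝ := Mx αM (xs z) (ys z) n t

/-- the sizes are admissible -/
def S_MS : Prop := S_LV → ∀ (z : Md → ℝ → ℂ) (θ : ℝ), 0 ≤ θ → (∀ i, ContinuousOn (z i) (Icc 0 θ)) →
  (∀ i, ∀ t ∈ Icc 0 θ, z (br i) t = conj (z i t)) → (∀ i, ∀ t ∈ Icc 0 θ, ‖z i t‖ ≤ 1) →
  Cnd αM (xs z) (ys z) θ → (∀ t ∈ Icc 0 θ, Adq (Ms z t)) ∧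
  (∀ s ∈ Icc 0 θ, ∀ t ∈ Icc 0 θ, s ≤ t → ∀ n, Ms z s n ≤ Ms z t n) ∧
  ∀ i, σM i = 0 → ∀ s ∈ Icc 0 θ, ∀ t ∈ Icc 0 θ, s ≤ t → ‖z i s‖ ≤ Ms z t (lvM i)

/-- the bootstrap: the other modes are relatively small -/
def S_BTC : Prop := S_LV → S_CODE → S_ENV → S_RATE → S_GAP → S_IBP → S_MS → S_SUMS → S_VEC →
  S_LAT → (∀ j ≤ 4, S_ST j) → S_KERM → S_DATM → ∀ h, Frame h → ∀ (N : ℕ) (z : Md → ℝ → ℂ),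
  TSol SF lvM br σM (cK h) vM N z → ∀ θ ∈ Icc (0 : ℝ) 1, Cnd αM (xs z) (ys z) θ →
  ∀ i, σM i ≠ 0 → ∀ t ∈ Icc 0 θ, ‖z i t‖ ≤ (10 ^ 20)⁻¹ * (ln i ^ 7)⁻¹ * env (Ms z t) (ln i)

/-- limits of the truncated solutions -/
def S_LIMR : Prop := ∀ (I : Type) (lv : I → ℕ) (bar : I → I) (σ : I → ℝ) (c : I → I → I → ℂ)
  (S : ℕ → ℝ) (v : I → ℂ), Ker lv bar σ c → Dat bar σ v →
  ∀ Z : ℕ → I → ℝ → ℂ, (∀ N, TSol S lv bar σ c v N (Z N)) →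
  ∀ U : Ultrafilter ℕ, (U : Filter ℕ) ≤ atTop → ∃ z : I → ℝ → ℂ,
    (∀ i, ∀ t ∈ Icc (0 : ℝ) 60, Tendsto (fun N => Z N i t) U (𝓝 (z i t))) ∧
    (∀ i, ∀ t ∈ Icc (0 : ℝ) 60, z (bar i) t = conj (z i t)) ∧ (∀ i, z i 0 = v i) ∧
    (∀ t ∈ Icc (0 : ℝ) 60, Summable (fun a => ‖z a t‖ ^ 2) ∧ ∑' a, ‖z a t‖ ^ 2 ≤ 1) ∧
    (∀ i, ∃ C, ∀ᶠ N in (U : Filter ℕ), ∀ s ∈ Icc (0 : ℝ) 60, ∀ t ∈ Icc (0 : ℝ) 60,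
      ‖Z N i s - Z N i t‖ ≤ C * |s - t|) ∧
    ∀ θ ∈ Icc (0 : ℝ) 60, ∀ β : I → ℝ, Summable (fun j => if σ j = 0 then 0 else β j) →
      (∀ᶠ N in (U : Filter ℕ), ∀ j, σ j ≠ 0 → ∀ t ∈ Icc 0 θ, ‖Z N j t‖ ≤ β j) →
      ∀ i, ∀ t ∈ Icc 0 θ, HasDerivWithinAt (z i)
        (Kz S lv σ (fun a => z a t) i + qd c (fun a => z a t) i) (Icc 0 θ) t

/-- uniform convergence along an ultrafilter -/
def S_UC : Prop := ∀ (Z : ℕ → ℝ → ℂ) (z : ℝ → ℂ) (U : Ultrafilter ℕ) (θ C : ℝ), 0 ≤ θ →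
  (∀ᶠ N in (U : Filter ℕ), ∀ s ∈ Icc 0 θ, ∀ t ∈ Icc 0 θ, ‖Z N s - Z N t‖ ≤ C * |s - t|) →
  (∀ t ∈ Icc 0 θ, Tendsto (fun N => Z N t) U (𝓝 (z t))) →
  ∀ ε > 0, ∀ᶠ N in (U : Filter ℕ), ∀ t ∈ Icc 0 θ, ‖Z N t - z t‖ ≤ ε

/-- Blow-up for the system of the modes. -/
def S_BLOWF : Prop := ∀ h, Frame h → ∃ (T : ℝ) (z : Md → ℝ → ℂ), 0 < T ∧ T ≤ 1 ∧
    KSol SF lvM br σM (cK h) NM T z ∧ (∀ i, z i 0 = vM i) ∧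
    (∀ (T' : ℝ) (z' : Md → ℝ → ℂ), 0 < T' → KSol SF lvM br σM (cK h) NM T' z' →
      (∀ i, z' i 0 = vM i) → T' ≤ T ∧ ∀ i, ∀ t ∈ Ico 0 T', z' i t = z i t) ∧
    (∀ t ∈ Ico 0 T, Summable (fun a => ‖z a t‖ ^ 2) ∧
      ∑' a, ‖z a t‖ ^ 2 = ∑' a, ‖vM a‖ ^ 2) ∧
    ∀ M : ℝ, ∃ t ∈ Ico 0 T, ∃ i, σM i = 0 ∧ M < αM (lvM i) * ‖z i t‖

/-- The main theorem, before scaling. -/
def S_MAIN1 : Prop := ∃ (m n : Z3 → ℝ) (C T : ℝ) (V : ℝ → Coef), (∀ k, m (-k) = -m k) ∧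
  (∀ k, n (-k) = -n k) ∧ (∀ k, |m k| + |n k| ≤ C * len k ^ 16) ∧ 0 < T ∧ T ≤ 1 ∧ IsSol m n T V ∧
  (∀ (T' : ℝ) (W : ℝ → Coef), 0 < T' → IsSol m n T' W → W 0 = V 0 →
    T' ≤ T ∧ ∀ t ∈ Ico 0 T', W t = V t) ∧
  (∀ t ∈ Ico 0 T, energy (V t) = energy (V 0)) ∧
  ∀ M : ℝ, ∃ t ∈ Ico 0 T, M < enstr (V t)

/-- The main theorem: the multiplier has order 16 and is as small as we like, and the initial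
data are as small as we like. -/
def S_MAINF : Prop := ∀ (q : ℕ) (ε : ℝ), 0 < ε → ∃ (m n : Z3 → ℝ) (T : ℝ) (V : ℝ → Coef),
  (∀ k, m (-k) = -m k) ∧ (∀ k, n (-k) = -n k) ∧ (∀ k, |m k| + |n k| ≤ ε * len k ^ 16) ∧
  (∀ k j, len k ^ q * ‖V 0 k j‖ ≤ ε) ∧ 0 < T ∧ IsSol m n T V ∧
  (∀ (T' : ℝ) (W : ℝ → Coef), 0 < T' → IsSol m n T' W → W 0 = V 0 →
    T' ≤ T ∧ ∀ t ∈ Ico 0 T', W t = V t) ∧
  (∀ t ∈ Ico 0 T, energy (V t) = energy (V 0)) ∧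
  ∀ M : ℝ, ∃ t ∈ Ico 0 T, M < enstr (V t)

/-- scaling: `λ V (λ t)` -/
def S_SCALE : Prop := S_MAIN1 → S_MAINF

/-- the passage to fields (adapt EM-PH3) -/
def S_PH3 : Prop := S_LV → S_GAP → S_CODE → S_DATM → S_BLOWF → S_MAIN1

end Pool.Agent.Y6.F
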