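import Pool.Agent.Y6.F.Stm
import Pool.Agent.Y6.M.Blow

/-! Blow-up for the system of the modes (assembly). -/

open Set Filter Topology
open scoped ComplexConjugate

set_option autoImplicit false

namespace Pool.Agent.Y6.F

open Pool.Agent.Y6.M (qd mq Kz Ker Adm Dat TSol Wt KSol cX cY Uth εc x0 Mains MDat Z3 C3 Coef dt cr
  cj kc nsq len adv leray Kop IsField IsSol energy enstr Md hs br Frame cK sgz pf Kz_main one_of)

/-- everything we know -/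
structure Ctx (h : Md → C3) : Prop where
  lv : S_LV
  envl : S_ENV
  ms : S_MS
  ker : Ker lvM br σM (cK h)
  chn : ChnF αM (GM h) bM dM
  mains : Mains lvM br σM (cK h) (GM h) bM dM Xm Ym
  wt : Wt lvM σM αM (cK h) NM
  dat : Dat br σM vM
  mdat : MDat αM Xm Ym vM
  btc : ∀ (N : ℕ) (z : Md → ℝ → ℂ), TSol SF lvM br σM (cK h) vM N z → ∀ θ ∈ Icc (0 : ℝ) 1,
    Cnd αM (xs z) (ys z) θ → ∀ i, σM i ≠ 0 → ∀ t ∈ Icc 0 θ,
      ‖z i t‖ ≤ (10 ^ 20)⁻¹ * (ln i ^ 7)⁻¹ * env (Ms z t) (ln i)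
  prt : ∀ M, Adq M → ∀ z : Md → ℂ, (∀ i, ‖z i‖ ≤ eF M i) → ∀ i, σM i = 0 →
    ‖qd (cK h) z i - mq σM (cK h) z i‖ ≤ κr αM (lvM i) * M (lvM i)
  code : S_CODE
  chain : S_CHAIN
  pers : S_PERSR
  loc : S_LOCR
  uc : S_UC

section

variable {h : Md → C3}

lemma a1 (n : ℕ) : (1 : ℝ) ≤ αM n := by
  unfold αM
  exact_mod_cast al_pos n

lemma apos (n : ℕ) : (0 : ℝ) < αM n := lt_of_lt_of_le one_pos (a1 n)

lemma a_grow (n : ℕ) : (2 : ℝ) ^ n ≤ αM n := by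
  have key : ∀ n, 2 ^ (n + 1) ≤ al n := by
    intro n
    induction n with
    | zero =>
      have : al 0 = 10 ^ 100 := rfl
      rw [this]
      norm_num
    | succ n ih =>
      have h1 : al (n + 1) = al n ^ (2 * n + 60) := rfl
      have h2 : 2 ≤ al n := le_trans (by
        rw [pow_succ]
        have : 1 ≤ 2 ^ n := Nat.one_le_two_pow
        omega) ih
      rw [h1]
      calc 2 ^ (n + 1 + 1) = 2 ^ (n + 1) * 2 := pow_succ _ _
        _ ≤ al n * al n := Nat.mul_le_mul ih h2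
        _ = al n ^ 2 := by ring
        _ ≤ al n ^ (2 * n + 60) := Nat.pow_le_pow_right (al_pos n) (by omega)
  have h1 := key n
  have h2 : (2 : ℝ) ^ (n + 1) ≤ αM n := by
    unfold αM
    exact_mod_cast h1
  have h3 : (2 : ℝ) ^ n ≤ 2 ^ (n + 1) := pow_le_pow_right₀ (by norm_num) (Nat.le_succ n)
  linarith

lemma ε_pos (n : ℕ) : 0 < εc αM n := by
  unfold εc
  have := apos n
  positivity

lemma x0_pos (n : ℕ) : 0 < x0 αM n := by
  cases n with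
  | zero => norm_num [x0]
  | succ n => exact ε_pos _

/-- a continuous truncated solution -/
lemma tcont (c : Ctx h) {N : ℕ} {z : Md → ℝ → ℂ} (hz : TSol SF lvM br σM (cK h) vM N z) (i : Md) :
    ContinuousOn (z i) (Icc 0 60) := by
  rcases le_or_gt (lvM i) N with h1 | h1
  · exact fun t ht => (hz.deriv i h1 t ht).continuousWithinAt
  · have h2 : z i = fun _ => 0 := funext fun s => hz.zero i h1 s
    rw [h2]
    exact continuousOn_const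

lemma tone (c : Ctx h) {N : ℕ} {z : Md → ℝ → ℂ} (hz : TSol SF lvM br σM (cK h) vM N z) (i : Md)
    (t : ℝ) (ht : t ∈ Icc (0 : ℝ) 60) : ‖z i t‖ ≤ 1 :=
  one_of (z := fun a => z a t) (Pool.Agent.Y6.M.TSol.summable c.ker hz t) (hz.energy t ht) i

lemma sub60 {θ : ℝ} (hθ : θ ≤ 60) : Icc (0 : ℝ) θ ⊆ Icc 0 60 := Icc_subset_Icc_right hθ

/-- the perturbations of a solution are relatively small -/
lemma prt_gen (c : Ctx h) {z : Md → ℝ → ℂ} {θ : ℝ} (h0 : 0 ≤ θ)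
    (hc : ∀ i, ContinuousOn (z i) (Icc 0 θ)) (hr : ∀ i, ∀ t ∈ Icc 0 θ, z (br i) t = conj (z i t))
    (h1 : ∀ i, ∀ t ∈ Icc 0 θ, ‖z i t‖ ≤ 1) (hC : Cnd αM (xs z) (ys z) θ)
    (ho : ∀ i, σM i ≠ 0 → ∀ t ∈ Icc 0 θ,
      ‖z i t‖ ≤ (10 ^ 20)⁻¹ * (ln i ^ 7)⁻¹ * env (Ms z t) (ln i)) :
    Prt αM (xs z) (ys z) (pf σM (cK h) Xm z) (pf σM (cK h) Ym z) θ := by
  obtain ⟨m1, -, m3⟩ := c.ms c.lv z θ h0 hc hr h1 hC
  have key : ∀ t ∈ Icc 0 θ, ∀ i, ‖z i t‖ ≤ eF (Ms z t) i := by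
    intro t ht i
    by_cases hi : σM i = 0
    · have h2 := m3 i hi t ht t ht le_rfl
      have h3 := (c.lv.2.2.2.2.2.2.1 i hi)
      have h4 := (c.code.2.2.2.2.1 i)
      have h5 : NM i = ln i ^ 2 := h4.2.symm
      rw [h5] at h3
      have h6 : αM (lvM i) ≤ ln i := by
        have := apos (lvM i)
        exact le_of_sq_le_sq h3.1 (by linarith [h4.1])
      have h7 : ln i ≤ 4 * αM (lvM i) := by
        refine le_of_sq_le_sq ?_ (by linarith [apos (lvM i)])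
        nlinarith [h3.2, apos (lvM i)]
      have h8 := ((c.envl.1 _ (m1 t ht)).2.2.1 (lvM i) (ln i) (by linarith [apos (lvM i)]) h7)
      unfold eF
      rw [if_pos hi, h8]
      exact h2
    · unfold eF
      rw [if_neg hi]
      exact ho i hi t ht
  intro n t ht
  have h2 := c.prt _ (m1 t ht) (fun a => z a t) (key t ht)
  have h3 := h2 (Xm n) (c.mains.sX n)
  have h4 := h2 (Ym n) (c.mains.sY n)
  rw [c.mains.lX] at h3
  rw [c.mains.lY] at h4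
  exact ⟨h3, h4⟩

/-- the chain of a solution -/
lemma dsol_gen (c : Ctx h) {N : ℕ} {z : Md → ℝ → ℂ} {θ : ℝ}
    (hr : ∀ i, ∀ t ∈ Icc 0 θ, z (br i) t = conj (z i t)) (h1 : ∀ i, ∀ t ∈ Icc 0 θ, ‖z i t‖ ≤ 1)
    (hd : ∀ i, lvM i ≤ N → ∀ t ∈ Icc 0 θ, HasDerivWithinAt (z i)
      (Kz SF lvM σM (fun a => z a t) i + qd (cK h) (fun a => z a t) i) (Icc 0 θ) t) :
    DSol (GM h) bM dM N 0 θ (xs z) (ys z) (pf σM (cK h) Xm z) (pf σM (cK h) Ym z) := by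
  refine ⟨fun m hm t ht => ?_, fun m hm t ht => ?_, fun m t ht => ⟨h1 _ t ht, h1 _ t ht⟩⟩
  · refine (hd (Xm m) ((c.mains.lX m).le.trans hm) t ht).congr_deriv ?_
    have h2 := c.mains.tX (fun a => z a t) (fun i => hr i t ht) m
    rw [Kz_main (c.mains.sX m)]
    show 0 + qd (cK h) (fun a => z a t) (Xm m) =
      cX (GM h) bM dM (fun n => z (Xm n) t) (fun n => z (Ym n) t) m + _
    rw [← h2]
    simp only [pf]
    ring
  · refine (hd (Ym m) ((c.mains.lY m).le.trans hm) t ht).congr_deriv ?_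
    have h2 := c.mains.tY (fun a => z a t) (fun i => hr i t ht) m
    rw [Kz_main (c.mains.sY m)]
    show 0 + qd (cK h) (fun a => z a t) (Ym m) = cY (GM h) dM (fun n => z (Xm n) t) m + _
    rw [← h2]
    simp only [pf]
    ring

lemma tdsol (c : Ctx h) {N : ℕ} {z : Md → ℝ → ℂ} (hz : TSol SF lvM br σM (cK h) vM N z) {θ : ℝ}
    (hθ : θ ≤ 60) :
    DSol (GM h) bM dM N 0 θ (xs z) (ys z) (pf σM (cK h) Xm z) (pf σM (cK h) Ym z) :=
  dsol_gen c (fun i t ht => hz.real i t (sub60 hθ ht)) (fun i t ht => tone c hz i t (sub60 hθ ht))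
    (fun i hi t ht => (hz.deriv i hi t (sub60 hθ ht)).mono (sub60 hθ))

lemma tprt (c : Ctx h) {N : ℕ} {z : Md → ℝ → ℂ} (hz : TSol SF lvM br σM (cK h) vM N z) {θ : ℝ}
    (hθ : θ ∈ Icc (0 : ℝ) 1) (hC : Cnd αM (xs z) (ys z) θ) :
    Prt αM (xs z) (ys z) (pf σM (cK h) Xm z) (pf σM (cK h) Ym z) θ := by
  have h60 : θ ≤ 60 := hθ.2.trans (by norm_num)
  exact prt_gen c hθ.1 (fun i => (tcont c hz i).mono (sub60 h60))
    (fun i t ht => hz.real i t (sub60 h60 ht)) (fun i t ht => tone c hz i t (sub60 h60 ht)) hC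
    (c.btc N z hz θ hθ hC)

lemma tinit (c : Ctx h) {N : ℕ} {z : Md → ℝ → ℂ} (hz : TSol SF lvM br σM (cK h) vM N z) :
    (∀ n ≤ N, xs z n 0 = (x0 αM n : ℝ)) ∧ ∀ n, ys z n 0 = 0 := by
  refine ⟨fun n hn => ?_, fun n => ?_⟩
  · show z (Xm n) 0 = _
    rw [hz.init _ ((c.mains.lX n).le.trans hn), c.mdat.vX]
  · show z (Ym n) 0 = 0
    rcases le_or_gt (lvM (Ym n)) N with h1 | h1
    · rw [hz.init _ h1, c.mdat.vY]
    · rw [hz.zero _ h1]

lemma tzero (c : Ctx h) {N : ℕ} {z : Md → ℝ → ℂ} (hz : TSol SF lvM br σM (cK h) vM N z) :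
    (∀ n, N < n → ∀ t, xs z n t = 0) ∧ ∀ n, N ≤ n → ∀ t, ys z n t = 0 := by
  refine ⟨fun n hn t => hz.zero _ (by rw [c.mains.lX]; exact hn) t,
    fun n hn t => hz.zero _ (by rw [c.mains.lY]; omega) t⟩

lemma tms (c : Ctx h) {N : ℕ} {z : Md → ℝ → ℂ} (hz : TSol SF lvM br σM (cK h) vM N z) {θ : ℝ}
    (hθ : θ ∈ Icc (0 : ℝ) 1) (hC : Cnd αM (xs z) (ys z) θ) :
    (∀ t ∈ Icc 0 θ, Adq (Ms z t)) ∧
    (∀ s ∈ Icc 0 θ, ∀ t ∈ Icc 0 θ, s ≤ t → ∀ n, Ms z s n ≤ Ms z t n) ∧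
    ∀ i, σM i = 0 → ∀ s ∈ Icc 0 θ, ∀ t ∈ Icc 0 θ, s ≤ t → ‖z i s‖ ≤ Ms z t (lvM i) := by
  have h60 : θ ≤ 60 := hθ.2.trans (by norm_num)
  exact c.ms c.lv z θ hθ.1 (fun i => (tcont c hz i).mono (sub60 h60))
    (fun i t ht => hz.real i t (sub60 h60 ht)) (fun i t ht => tone c hz i t (sub60 h60 ht)) hC

/-- beyond the truncation the sizes are the initial ones -/
lemma ms_high {z : Md → ℝ → ℂ} {N : ℕ} (h1 : ∀ n, N < n → ∀ t, xs z n t = 0)
    (h2 : ∀ n, N ≤ n → ∀ t, ys z n t = 0) {t : ℝ} (ht : 0 ≤ t) {n : ℕ} (hn : N < n) :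
    Ms z t n = εc αM n := by
  obtain ⟨m, rfl⟩ : ∃ m, n = m + 1 := ⟨n - 1, by omega⟩
  show max (εc αM (m + 1)) (sSup ((fun s => max ‖xs z (m + 1) s‖ ‖ys z m s‖) '' Icc 0 t)) = _
  have h3 : (fun s => max ‖xs z (m + 1) s‖ ‖ys z m s‖) = fun _ => (0 : ℝ) := by
    funext s
    rw [h1 _ hn, h2 _ (by omega)]
    simp
  rw [h3, (nonempty_Icc.2 ht).image_const, csSup_singleton]
  exact max_eq_left (ε_pos _).le

/-- the weighted seeds are bounded -/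
lemma ε_bd (k : ℕ) : ∃ M, ∀ n, αM n ^ k * εc αM n ≤ M := by
  refine ⟨∑ n ∈ Finset.range (k + 1), αM n ^ k + 1, fun n => ?_⟩
  have h1 := a1 n
  have hx : εc αM n ≤ 1 := inv_le_one_of_one_le₀ (one_le_pow₀ h1)
  rcases lt_or_ge n (k + 1) with h | h
  · have h2 : αM n ^ k ≤ ∑ n ∈ Finset.range (k + 1), αM n ^ k :=
      Finset.single_le_sum (f := fun n => αM n ^ k) (fun m _ => (pow_pos (apos m) k).le)
        (Finset.mem_range.2 h)
    have h3 : αM n ^ k * εc αM n ≤ αM n ^ k := mul_le_of_le_one_right (pow_pos (apos n) k).le hx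
    linarith
  · have h2 : 0 ≤ ∑ n ∈ Finset.range (k + 1), αM n ^ k :=
      Finset.sum_nonneg fun m _ => (pow_pos (apos m) k).le
    have h3 : αM n ^ k * εc αM n ≤ 1 := by
      show αM n ^ k * (αM n ^ (n + 1))⁻¹ ≤ 1
      rw [← div_eq_mul_inv]
      exact div_le_one_of_le₀ (pow_le_pow_right₀ h1 (by omega)) (pow_pos (apos _) _).le
    linarith

/-- the decay of the truncated solutions -/
lemma tpers (c : Ctx h) (k : ℕ) (M : ℝ) : ∃ C : ℝ, ∀ (N : ℕ) (z : Md → ℝ → ℂ),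
    TSol SF lvM br σM (cK h) vM N z → ∀ θ ∈ Icc (0 : ℝ) 1, Cnd αM (xs z) (ys z) θ →
    (∀ n, αM n * Ms z θ n ≤ M) → ∀ n, ∀ t ∈ Icc 0 θ, αM n ^ k * Ms z t n ≤ C := by
  obtain ⟨C, hC⟩ := c.pers αM (GM h) bM dM c.chn k M
  obtain ⟨C', hC'⟩ := ε_bd k
  refine ⟨max C C', fun N z hz θ hθ hCn hM n t ht => ?_⟩
  rcases le_or_gt n N with hn | hn
  · refine le_trans ?_ (le_max_left _ _)
    obtain ⟨-, -, m3⟩ := tms c hz hθ hCn
    have hθθ : θ ∈ Icc 0 θ := ⟨hθ.1, le_rfl⟩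
    refine hC N θ _ _ _ _ hθ.1 hθ.2 (tdsol c hz (hθ.2.trans (by norm_num))) (tinit c hz).1
      (tinit c hz).2 hCn (tprt c hz hθ hCn) (fun m s hs => ⟨?_, ?_⟩) n hn t ht
    · have h1 := m3 (Xm m) (c.mains.sX m) s hs θ hθθ hs.2
      rw [c.mains.lX] at h1
      exact (mul_le_mul_of_nonneg_left h1 (apos m).le).trans (hM m)
    · have h1 := m3 (Ym m) (c.mains.sY m) s hs θ hθθ hs.2
      rw [c.mains.lY] at h1
      exact (mul_le_mul_of_nonneg_left h1 (apos _).le).trans (hM (m + 1))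
  · refine le_trans ?_ (le_max_right _ _)
    rw [ms_high (tzero c hz).1 (tzero c hz).2 ht.1 hn]
    exact hC' n

/-- the times of the cascade -/
lemma ttime (c : Ctx h) {N : ℕ} {z : Md → ℝ → ℂ} (hz : TSol SF lvM br σM (cK h) vM (N + 1) z) :
    ∃ T, 0 < T ∧ T ≤ 1 ∧ Cnd αM (xs z) (ys z) T ∧ √(αM (N + 1)) ≤ αM (N + 1) * Ms z T (N + 1) := by
  obtain ⟨T, h1, h2, h3, h4⟩ := c.chain αM (GM h) bM dM c.chn N _ _ _ _
    (tdsol c hz (by norm_num)) (fun n hn t _ => (tzero c hz).1 n hn t)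
    (fun n hn t _ => (tzero c hz).2 n hn t) (tinit c hz).1 (tinit c hz).2
    (fun θ hθ hC => tprt c hz hθ hC)
  refine ⟨T, h1, h2, h3, ?_⟩
  obtain ⟨-, -, m3⟩ := tms c hz ⟨h1.le, h2⟩ h3
  have hT : T ∈ Icc 0 T := ⟨h1.le, le_rfl⟩
  have h5 : Uth αM (N + 1) ≤ Ms z T (N + 1) := by
    rcases h4 with h4 | h4
    · have h6 := m3 (Xm (N + 1)) (c.mains.sX _) T hT T hT le_rfl
      rw [c.mains.lX] at h6
      exact h4.trans h6
    · have h6 := m3 (Ym N) (c.mains.sY _) T hT T hT le_rfl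
      rw [c.mains.lY] at h6
      exact h4.trans h6
  have h7 : αM (N + 1) * Uth αM (N + 1) = √(αM (N + 1)) := by
    unfold Uth
    have h8 : 0 < √(αM (N + 1)) := Real.sqrt_pos.2 (apos _)
    field_simp
    rw [Real.sq_sqrt (apos _).le]
  rw [← h7]
  exact mul_le_mul_of_nonneg_left h5 (apos _).le

/-- convergence of the sizes -/
lemma ms_tendsto (c : Ctx h) {Z : ℕ → Md → ℝ → ℂ} {z : Md → ℝ → ℂ} {U : Ultrafilter ℕ} {θ : ℝ}
    (h0 : 0 ≤ θ)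
    (hu : ∀ i, ∀ ε > 0, ∀ᶠ N in (U : Filter ℕ), ∀ t ∈ Icc 0 θ, ‖Z N i t - z i t‖ ≤ ε)
    (hb : ∀ i, ∀ t ∈ Icc 0 θ, ‖z i t‖ ≤ 1)
    (hb' : ∀ N i, ∀ t ∈ Icc 0 θ, ‖Z N i t‖ ≤ 1) (n : ℕ) {t : ℝ} (ht : t ∈ Icc 0 θ) :
    Tendsto (fun N => Ms (Z N) t n) U (𝓝 (Ms z t n)) := by
  rcases n with _ | n
  · exact tendsto_const_nhds
  · rw [Metric.tendsto_nhds]
    intro ε hε
    filter_upwards [hu (Xm (n + 1)) (ε / 2) (by positivity), hu (Ym n) (ε / 2) (by positivity)]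
      with N h1 h2
    have hsub : Icc 0 t ⊆ Icc 0 θ := Icc_subset_Icc_right ht.2
    have hne : (Icc 0 t).Nonempty := nonempty_Icc.2 ht.1
    have key : ∀ (f g : ℝ → ℝ), (∀ s ∈ Icc 0 t, f s ≤ 1) → (∀ s ∈ Icc 0 t, f s ≤ g s + ε / 2) →
        (∀ s ∈ Icc 0 t, g s ≤ 1) → sSup (f '' Icc 0 t) ≤ sSup (g '' Icc 0 t) + ε / 2 := by
      intro f g _ hfg hg
      refine csSup_le (hne.image _) ?_
      rintro _ ⟨s, hs, rfl⟩
      have h3 : g s ≤ sSup (g '' Icc 0 t) := le_csSup ⟨1, by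
        rintro _ ⟨s, hs, rfl⟩; exact hg s hs⟩ ⟨s, hs, rfl⟩
      linarith [hfg s hs]
    have e1 : ∀ s ∈ Icc 0 t, max ‖xs (Z N) (n + 1) s‖ ‖ys (Z N) n s‖ ≤
        max ‖xs z (n + 1) s‖ ‖ys z n s‖ + ε / 2 := by
      intro s hs
      have h3 := h1 s (hsub hs)
      have h4 := h2 s (hsub hs)
      refine max_le ?_ ?_
      · have : ‖xs (Z N) (n + 1) s‖ ≤ ‖xs z (n + 1) s‖ + ε / 2 := by
          have h5 := norm_sub_norm_le (Z N (Xm (n + 1)) s) (z (Xm (n + 1)) s)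
          show ‖Z N (Xm (n + 1)) s‖ ≤ ‖z (Xm (n + 1)) s‖ + ε / 2
          linarith
        exact this.trans (by gcongr; exact le_max_left _ _)
      · have : ‖ys (Z N) n s‖ ≤ ‖ys z n s‖ + ε / 2 := by
          have h5 := norm_sub_norm_le (Z N (Ym n) s) (z (Ym n) s)
          show ‖Z N (Ym n) s‖ ≤ ‖z (Ym n) s‖ + ε / 2
          linarith
        exact this.trans (by gcongr; exact le_max_right _ _)
    have e2 : ∀ s ∈ Icc 0 t, max ‖xs z (n + 1) s‖ ‖ys z n s‖ ≤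
        max ‖xs (Z N) (n + 1) s‖ ‖ys (Z N) n s‖ + ε / 2 := by
      intro s hs
      have h3 := h1 s (hsub hs)
      have h4 := h2 s (hsub hs)
      rw [norm_sub_rev] at h3 h4
      refine max_le ?_ ?_
      · have : ‖xs z (n + 1) s‖ ≤ ‖xs (Z N) (n + 1) s‖ + ε / 2 := by
          have h5 := norm_sub_norm_le (z (Xm (n + 1)) s) (Z N (Xm (n + 1)) s)
          show ‖z (Xm (n + 1)) s‖ ≤ ‖Z N (Xm (n + 1)) s‖ + ε / 2
          linarith
        exact this.trans (by gcongr; exact le_max_left _ _)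
      · have : ‖ys z n s‖ ≤ ‖ys (Z N) n s‖ + ε / 2 := by
          have h5 := norm_sub_norm_le (z (Ym n) s) (Z N (Ym n) s)
          show ‖z (Ym n) s‖ ≤ ‖Z N (Ym n) s‖ + ε / 2
          linarith
        exact this.trans (by gcongr; exact le_max_right _ _)
    have b1 : ∀ s ∈ Icc 0 t, max ‖xs z (n + 1) s‖ ‖ys z n s‖ ≤ 1 := fun s hs =>
      max_le (hb _ s (hsub hs)) (hb _ s (hsub hs))
    have b2 : ∀ s ∈ Icc 0 t, max ‖xs (Z N) (n + 1) s‖ ‖ys (Z N) n s‖ ≤ 1 := fun s hs =>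
      max_le (hb' N _ s (hsub hs)) (hb' N _ s (hsub hs))
    have k1 := key _ _ b2 e1 b1
    have k2 := key _ _ b1 e2 b2
    rw [Real.dist_eq]
    have h3 : |Ms (Z N) t (n + 1) - Ms z t (n + 1)| ≤ ε / 2 := by
      have h4 := abs_max_sub_max_le_abs
        (sSup ((fun s => max ‖xs (Z N) (n + 1) s‖ ‖ys (Z N) n s‖) '' Icc 0 t))
        (sSup ((fun s => max ‖xs z (n + 1) s‖ ‖ys z n s‖) '' Icc 0 t)) (εc αM (n + 1))
      rw [max_comm, max_comm (sSup ((fun s => max ‖xs z (n + 1) s‖ ‖ys z n s‖) '' Icc 0 t))] at h4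
      refine le_trans h4 ?_
      rw [abs_le]
      constructor <;> linarith
    linarith

/-- continuity of the envelope -/
lemma env_tendsto {Mn : ℕ → ℕ → ℝ} {M : ℕ → ℝ} {U : Ultrafilter ℕ}
    (hM : ∀ n, Tendsto (fun N => Mn N n) U (𝓝 (M n))) (r : ℝ) :
    Tendsto (fun N => env (Mn N) r) U (𝓝 (env M r)) := by
  unfold env
  rcases idx r with _ | n
  · exact tendsto_const_nhds
  · exact (hM (n + 1)).max ((hM n).mul_const _)

end

end Pool.Agent.Y6.F
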