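import Pool.Agent.Y6.F.Defs

/-!
Statements for the chain part.
-/

open Set Filter Topology
open scoped ComplexConjugate

set_option autoImplicit false

namespace Pool.Agent.Y6.F

open Pool.Agent.Y6.M

/-- A driven pair `A' = ρ conj(p) B + F`, `B' = ρ p A + H` with `p` in a narrow sector and
relatively small perturbations `F`, `H`. -/
structure PairF (ρ τ κ E θ : ℝ) (p A B F H : ℝ → ℂ) : Prop where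
  hρ : 1 ≤ ρ
  hτ : 0 < τ
  hτ' : τ ≤ 1 / 10
  hκ : 0 ≤ κ
  hκ' : κ ≤ 1 / 10 ^ 4
  hE : 0 < E
  hθ : 0 ≤ θ
  hθ' : θ ≤ 1
  pc : ContinuousOn p (Icc 0 θ)
  ps : ∀ t ∈ Icc (0 : ℝ) θ, |(p t).im| ≤ τ * (p t).re ∧ ‖p t‖ ≤ 1
  dA : ∀ t ∈ Icc (0 : ℝ) θ, HasDerivWithinAt A ((ρ : ℂ) * conj (p t) * B t + F t) (Icc 0 θ) t
  dB : ∀ t ∈ Icc (0 : ℝ) θ, HasDerivWithinAt B ((ρ : ℂ) * p t * A t + H t) (Icc 0 θ) t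
  A0 : A 0 = (E : ℂ)
  B0 : B 0 = 0
  small : ∀ t ∈ Icc (0 : ℝ) θ, ∃ s ∈ Icc (0 : ℝ) t,
    ‖F t‖ ≤ κ * max ‖A s‖ ‖B s‖ ∧ ‖H t‖ ≤ κ * max ‖A s‖ ‖B s‖

/-- growth of a driven pair, `N = ‖A + B‖` -/
def S_PAIRA : Prop := ∀ (ρ τ κ E θ : ℝ) (p A B F H : ℝ → ℂ), PairF ρ τ κ E θ p A B F H →
  (∀ t ∈ Icc (0 : ℝ) θ, 0 < ‖A t + B t‖ ∧ 48 / 100 * ‖A t + B t‖ ≤ ‖A t‖ ∧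
    ‖A t‖ ^ 2 + ‖B t‖ ^ 2 ≤ 102 / 100 * ‖A t + B t‖ ^ 2) ∧
  (∀ s t c : ℝ, 0 ≤ s → s ≤ t → t ≤ θ → 0 ≤ c → (∀ r ∈ Icc s t, c ≤ ‖p r‖) →
    ‖A s + B s‖ * Real.exp (9 / 10 * ρ * c * (t - s)) ≤ 101 / 100 * ‖A t + B t‖) ∧
  (∀ s t : ℝ, 0 ≤ s → s ≤ t → t ≤ θ →
    ‖A t + B t‖ ≤ ‖A s + B s‖ * Real.exp (3 * ρ * (t - s))) ∧
  (∀ t ∈ Icc (0 : ℝ) θ, -(5 * κ * ‖A t + B t‖ ^ 2) ≤ ‖A t‖ ^ 2 - ‖B t‖ ^ 2 ∧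
    ‖F t‖ ≤ 2 * κ * ‖A t + B t‖ ∧ ‖H t‖ ≤ 2 * κ * ‖A t + B t‖ ∧
    (∃ S : ℂ, |S.im| ≤ τ * S.re ∧ ‖B t * conj (A t) - S‖ ≤ 3 * κ * ‖A t + B t‖ ^ 2) ∧
    (19 / 10 * ρ * ‖p t‖ - 5 * κ) * ‖A t + B t‖ ^ 2 ≤
      2 * (((ρ : ℂ) * conj (p t) * B t + F t + ((ρ : ℂ) * p t * A t + H t)) *
        conj (A t + B t)).re)

/-- the sector of a driven pair -/
def S_PAIRB : Prop := ∀ (ρ τ κ E θ Λ : ℝ) (p A B F H : ℝ → ℂ), PairF ρ τ κ E θ p A B F H →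
  0 ≤ Λ → κ * (1 + Λ) ≤ 1 / 10 ^ 5 →
  (∀ t ∈ Icc (0 : ℝ) θ, ‖A t + B t‖ ≤ E * Real.exp Λ) →
  ∀ t ∈ Icc (0 : ℝ) θ, |(A t).im| ≤ (τ + 100 * κ * (1 + Λ)) * (A t).re

/-- growth of the levels of the chain -/
def S_LVL : Prop := ∀ (α : ℕ → ℝ) (G : ℕ → ℂ) (b d : ℕ → ℝ), ChnF α G b d →
  ∀ (N : ℕ) (θ : ℝ) (x y f g : ℕ → ℝ → ℂ), 0 ≤ θ → θ ≤ 1 →
  DSol G b d N 0 θ x y f g → (∀ n ≤ N, x n 0 = (x0 α n : ℝ)) → (∀ n, y n 0 = 0) →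
  Cnd α x y θ → Prt α x y f g θ →
  (∀ t ∈ Icc (0 : ℝ) θ, 49 / 100 ≤ ‖x 0 t‖) ∧
  ∃ ν : ℕ → ℝ → ℝ, ∀ n < N, ν n 0 = εc α (n + 1) ∧
    (∀ t ∈ Icc (0 : ℝ) θ, 0 < ν n t ∧ 48 / 100 * ν n t ≤ ‖x (n + 1) t‖ ∧
      ‖x (n + 1) t‖ ≤ 102 / 100 * ν n t ∧ ‖y n t‖ ≤ 102 / 100 * ν n t) ∧
    (∀ s t c : ℝ, 0 ≤ s → s ≤ t → t ≤ θ → 0 ≤ c → (∀ r ∈ Icc s t, c ≤ ‖x n r‖) →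
      ν n s * Real.exp (9 / 10 * α n * c * (t - s)) ≤ 101 / 100 * ν n t) ∧
    (∀ s t : ℝ, 0 ≤ s → s ≤ t → t ≤ θ →
      ν n t ≤ ν n s * Real.exp (9 * α n * (t - s)))

end Pool.Agent.Y6.F
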