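import Pool.Agent.Y6.M.Defs

/-!
Definitions for the Euler equations with an additional skew-adjoint Fourier multiplier of finite
order.
-/

open Set Filter Topology
open scoped ComplexConjugate

set_option autoImplicit false

namespace Pool.Agent.Y6.F

open Pool.Agent.Y6.M

/-! ### The chain -/

/-- Coefficients of the chain: the triad `n` consists of `x n`, `x (n + 1)`, `y n`. -/
structure ChnF (α : ℕ → ℝ) (G : ℕ → ℂ) (b d : ℕ → ℝ) : Prop where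
  A0 : 10 ^ 100 ≤ α 0
  step : ∀ n, α (n + 1) = α n ^ (2 * n + 60)
  dpos : ∀ n, 0 < d n
  db : ∀ n, d n ≤ b n
  bd : ∀ n, b n ≤ 2 * d n
  lo : ∀ n, α n ≤ ‖G n‖ * d n
  hi : ∀ n, ‖G n‖ * b n ≤ 3 * α n

/-- Solutions of the chain with perturbations on `[s, e]`, for the levels `≤ N` -/
structure DSol (G : ℕ → ℂ) (b d : ℕ → ℝ) (N : ℕ) (s e : ℝ) (x y f g : ℕ → ℝ → ℂ) : Prop where
  dx : ∀ n ≤ N, ∀ t ∈ Icc s e, HasDerivWithinAt (x n)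
    (cX G b d (fun m => x m t) (fun m => y m t) n + f n t) (Icc s e) t
  dy : ∀ n < N, ∀ t ∈ Icc s e, HasDerivWithinAt (y n)
    (cY G d (fun m => x m t) n + g n t) (Icc s e) t
  one : ∀ n, ∀ t ∈ Icc s e, ‖x n t‖ ≤ 1 ∧ ‖y n t‖ ≤ 1

/-- running maximum of the modulus of the level `n` -/
noncomputable def Mx (α : ℕ → ℝ) (x y : ℕ → ℝ → ℂ) : ℕ → ℝ → ℝ
  | 0, _ => 1
  | n + 1, t => max (εc α (n + 1)) (sSup ((fun s => max ‖x (n + 1) s‖ ‖y n s‖) '' Icc 0 t))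

/-- the levels `≥ 1` are below twice their thresholds on `[0, θ]` -/
def Cnd (α : ℕ → ℝ) (x y : ℕ → ℝ → ℂ) (θ : ℝ) : Prop :=
  ∀ n, ∀ t ∈ Icc 0 θ, ‖x (n + 1) t‖ ≤ 2 * Uth α (n + 1) ∧ ‖y n t‖ ≤ 2 * Uth α (n + 1)

/-- relative size of the perturbations -/
noncomputable def κr (α : ℕ → ℝ) : ℕ → ℝ
  | 0 => (α 0)⁻¹
  | n + 1 => (α n ^ 4)⁻¹

/-- the perturbations are relatively small on `[0, θ]` -/
def Prt (α : ℕ → ℝ) (x y f g : ℕ → ℝ → ℂ) (θ : ℝ) : Prop :=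
  ∀ n, ∀ t ∈ Icc 0 θ, ‖f n t‖ ≤ κr α n * Mx α x y n t ∧
    ‖g n t‖ ≤ κr α (n + 1) * Mx α x y (n + 1) t

/-- the cascade in the truncated chain: at some time `T` the last level reaches its threshold, and
on `[0, T]` all levels are below twice their thresholds -/
def S_CHAIN : Prop := ∀ (α : ℕ → ℝ) (G : ℕ → ℂ) (b d : ℕ → ℝ), ChnF α G b d →
  ∀ (N : ℕ) (x y f g : ℕ → ℝ → ℂ), DSol G b d (N + 1) 0 1 x y f g →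
  (∀ n, N + 1 < n → ∀ t ∈ Icc (0 : ℝ) 1, x n t = 0) →
  (∀ n, N + 1 ≤ n → ∀ t ∈ Icc (0 : ℝ) 1, y n t = 0) →
  (∀ n ≤ N + 1, x n 0 = (x0 α n : ℝ)) → (∀ n, y n 0 = 0) →
  (∀ θ ∈ Icc (0 : ℝ) 1, Cnd α x y θ → Prt α x y f g θ) →
  ∃ T, 0 < T ∧ T ≤ 1 ∧ Cnd α x y T ∧
    (Uth α (N + 1) ≤ ‖x (N + 1) T‖ ∨ Uth α (N + 1) ≤ ‖y N T‖)

/-- persistence of the decay -/
def S_PERSR : Prop := ∀ (α : ℕ → ℝ) (G : ℕ → ℂ) (b d : ℕ → ℝ), ChnF α G b d →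
  ∀ (k : ℕ) (M : ℝ), ∃ C : ℝ, ∀ (N : ℕ) (θ : ℝ) (x y f g : ℕ → ℝ → ℂ), 0 ≤ θ → θ ≤ 1 →
  DSol G b d N 0 θ x y f g → (∀ n ≤ N, x n 0 = (x0 α n : ℝ)) → (∀ n, y n 0 = 0) →
  Cnd α x y θ → Prt α x y f g θ →
  (∀ n, ∀ t ∈ Icc 0 θ, α n * ‖x n t‖ ≤ M ∧ α (n + 1) * ‖y n t‖ ≤ M) →
  ∀ n ≤ N, ∀ t ∈ Icc 0 θ, α n ^ k * Mx α x y n t ≤ C

/-- local bounds -/
def S_LOCR : Prop := ∀ (α : ℕ → ℝ) (G : ℕ → ℂ) (b d : ℕ → ℝ), ChnF α G b d →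
  ∀ X : ℝ, ∃ δ M : ℝ, 0 < δ ∧ ∀ (N : ℕ) (s e : ℝ) (x y f g : ℕ → ℝ → ℂ), 0 ≤ s → s ≤ e →
  e ≤ 1 → e ≤ s + δ → DSol G b d N 0 e x y f g →
  (∀ n, N < n → ∀ t ∈ Icc 0 e, x n t = 0) → (∀ n, N ≤ n → ∀ t ∈ Icc 0 e, y n t = 0) →
  Cnd α x y e → Prt α x y f g e → (∀ n, α n * Mx α x y n s ≤ X) →
  ∀ n, ∀ t ∈ Icc 0 e, α n * Mx α x y n t ≤ M

end Pool.Agent.Y6.F
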