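import Pool.Agent.Y6.F.Defs

/-!
The concrete system for the Euler equations with a skew-adjoint Fourier multiplier of finite
order: frequencies of the chain, code and speed of a mode, envelopes.
Only these names of `Pool.Agent.Y6.M` are opened (the names `al, kx, Xm, ...` are defined anew).
-/

open Set Filter Topology
open scoped ComplexConjugate

set_option autoImplicit false

namespace Pool.Agent.Y6.F

open Pool.Agent.Y6.M (qd mq Kz Ker Adm Dat TSol Wt KSol cX cY Uth εc x0 Mains MDat Z3 C3 Coef dt cr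
  cj kc nsq len adv leray Kop IsField IsSol energy enstr Md hs br Frame cK sgz)

/-- the lengths of the frequencies of the chain -/
def al : ℕ → ℕ
  | 0 => 10 ^ 100
  | n + 1 => al n ^ (2 * n + 60)

/-- the frequencies of the modes `x`: `k n = α n e_{n mod 3}` -/
def kx (n : ℕ) : Z3 := fun j => if j.1 = n % 3 then (al n : ℤ) else 0

lemma al_pos (n : ℕ) : 0 < al n := by
  induction n with
  | zero => exact pow_pos (by norm_num) _
  | succ n ih => exact pow_pos ih _

lemma kx_ne (n : ℕ) : kx n ≠ 0 := by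
  intro h
  have h1 := congrFun h ⟨n % 3, Nat.mod_lt _ (by norm_num)⟩
  have h2 : kx n ⟨n % 3, Nat.mod_lt _ (by norm_num)⟩ = (al n : ℤ) := if_pos rfl
  rw [h2] at h1
  have := al_pos n
  simp at h1
  omega

lemma ky_ne (n : ℕ) : kx n + kx (n + 1) ≠ 0 := by
  intro h
  have h1 := congrFun h ⟨n % 3, Nat.mod_lt _ (by norm_num)⟩
  have h2 : kx n ⟨n % 3, Nat.mod_lt _ (by norm_num)⟩ = (al n : ℤ) := if_pos rfl
  have h3 : kx (n + 1) ⟨n % 3, Nat.mod_lt _ (by norm_num)⟩ = 0 := if_neg (by
    show ¬ n % 3 = (n + 1) % 3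
    omega)
  rw [Pi.add_apply, h2, h3] at h1
  have := al_pos n
  simp at h1
  omega

/-- the modes `x` of the chain -/
def Xm (n : ℕ) : Md := (⟨kx n, kx_ne n⟩, true)

/-- the modes `y` of the chain -/
def Ym (n : ℕ) : Md := (⟨kx n + kx (n + 1), ky_ne n⟩, false)

/-- the main modes of the level `n` -/
def ML (n : ℕ) (i : Md) : Prop :=
  i = Xm n ∨ i = br (Xm n) ∨ ∃ m, n = m + 1 ∧ (i = Ym m ∨ i = br (Ym m))

/-- the largest modulus of the coordinates -/
def rk (k : Z3) : ℕ := max (k 0).natAbs (max (k 1).natAbs (k 2).natAbs)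

/-- the code of a frequency and a helicity -/
def code (k : Z3) (s : Bool) : ℕ :=
  (((rk k * (2 * rk k + 1) + (k 0 + rk k).toNat) * (2 * rk k + 1) + (k 1 + rk k).toNat) *
    (2 * rk k + 1) + (k 2 + rk k).toNat) * 2 + (if s then 1 else 0)

/-- the code of a pair of opposite modes -/
def cd (i : Md) : ℕ := if sgz i.1.1 = 1 then code i.1.1 i.2 else code (-i.1.1) i.2

/-- the level of a mode -/
noncomputable def lvM (i : Md) : ℕ :=
  open Classical in
  if h : ∃ n, ML n i then Nat.find h else cd i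

/-- the sign of the rotation of a mode, zero for the main modes -/
noncomputable def σM (i : Md) : ℝ :=
  open Classical in
  if ∃ n, ML n i then 0 else (sgz i.1.1 : ℝ)

/-- the lengths, as real numbers -/
noncomputable def αM (n : ℕ) : ℝ := (al n : ℝ)

/-- the coefficients of the chain -/
noncomputable def GM (h : Md → C3) (n : ℕ) : ℂ :=
  2 * Real.pi * dt (cj (h (Ym n))) (cr (h (Xm n)) (h (Xm (n + 1))))

/-- the length of the frequency of `y n` -/
noncomputable def ρM (n : ℕ) : ℝ := √(αM n ^ 2 + αM (n + 1) ^ 2)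

noncomputable def bM (n : ℕ) : ℝ := αM n + ρM n

noncomputable def dM (n : ℕ) : ℝ := αM (n + 1) - αM n

/-- the weight of a mode -/
noncomputable def NM (i : Md) : ℝ := (nsq i.1.1 : ℝ)

/-- the length of the frequency of a mode -/
noncomputable def ln (i : Md) : ℝ := len i.1.1

/-- the initial data -/
noncomputable def vM (i : Md) : ℂ :=
  open Classical in
  if h : ∃ n, i = Xm n ∨ i = br (Xm n) then ((x0 αM (Nat.find h) : ℝ) : ℂ) else 0

/-- the speeds: `ω i = SF (lvM i) * σM i` -/
noncomputable def SF (c : ℕ) : ℝ := 10 ^ 60 * (c : ℝ) ^ 4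

/-- the speed of a mode -/
noncomputable def ωF (i : Md) : ℝ := SF (lvM i) * σM i

/-! ### Envelopes -/

/-- admissible sizes of the levels -/
structure Adq (M : ℕ → ℝ) : Prop where
  zero : M 0 = 1
  lo : ∀ n, εc αM n ≤ M n
  hi : ∀ n, M (n + 1) ≤ 2 * Uth αM (n + 1)

/-- the number `n` with `4 α (n - 1) < r ≤ 4 α n` -/
noncomputable def idx (r : ℝ) : ℕ := sInf {n | r ≤ 4 * αM n}

/-- the envelope -/
noncomputable def env (M : ℕ → ℝ) (r : ℝ) : ℝ :=
  match idx r with
  | 0 => 1
  | n + 1 => max (M (n + 1)) (M n * (4 * αM n / r) ^ (2 * n + 4))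

/-- the bounds of the modes -/
noncomputable def eF (M : ℕ → ℝ) (i : Md) : ℝ :=
  open Classical in
  if σM i = 0 then env M (ln i) else (10 ^ 20)⁻¹ * (ln i ^ 7)⁻¹ * env M (ln i)

/-- the bounds of the derivatives -/
noncomputable def rF (M : ℕ → ℝ) (i : Md) : ℝ := 10 ^ 4 * ln i ^ 2 * env M (ln i)

/-- the largest of the three lengths -/
noncomputable def mx (i : Md) (p : Md × Md) : ℝ := max (max (ln p.1) (ln p.2)) (ln i)

/-- lower bound of the detuning, zero if the pair is treated as resonant -/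
noncomputable def D0 (i : Md) (p : Md × Md) : ℝ :=
  open Classical in
  if σM p.1 = 0 then
    if σM p.2 = 0 then
      if ln p.1 ≤ 4 * ln i ∧ ln p.2 ≤ 4 * ln i then 10 ^ 60 * ln i ^ 16 else 0
    else 10 ^ 60 * max (ln p.2) (ln i) ^ 12
  else if σM p.2 = 0 then 10 ^ 60 * max (ln p.1) (ln i) ^ 12
  else if 256 * min (ln p.1) (ln p.2) ^ 4 ≤ mx i p ^ 3 then 10 ^ 60 / 2 * mx i p ^ 12
  else 0

/-- the type of a pair -/
noncomputable def Ty (i : Md) (p : Md × Md) : ℕ :=
  open Classical in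
  if σM p.1 = 0 then
    if σM p.2 = 0 then
      if ln p.1 ≤ 4 * ln i ∧ ln p.2 ≤ 4 * ln i then 1 else 0
    else 2
  else if σM p.2 = 0 then 2
  else if 256 * min (ln p.1) (ln p.2) ^ 4 ≤ mx i p ^ 3 then 3
  else 4

/-- the contribution of a pair to the bound of the mode `i` -/
noncomputable def tm (h : Md → C3) (M : ℕ → ℝ) (i : Md) (p : Md × Md) : ℝ :=
  open Classical in
  if 0 < D0 i p then ‖cK h i p.1 p.2‖ / D0 i p *
    (2 * eF M p.1 * eF M p.2 + (rF M p.1 * eF M p.2 + eF M p.1 * rF M p.2))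
  else ‖cK h i p.1 p.2‖ * eF M p.1 * eF M p.2

end Pool.Agent.Y6.F
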