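import Pool.Agent.Y438.EF.Dil

/-! Dilation: the multiplier acts only on the frequencies in `L ℤ³` (after `Y438/EF/Dil.lean`). -/

open Set Filter Topology
open scoped ComplexConjugate

set_option autoImplicit false

namespace Pool.Agent.Y6.F

open Pool.Agent.Y6.M (Z3 C3 Coef dt cr cj kc nsq len adv leray Kop IsField IsSol energy enstr)
open Pool.Agent.Y438.EF.DIL

/-- The main theorem: the multiplier has order 16, is as small as we like and acts only on the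
frequencies in `L ℤ³`, and the initial data are as small as we like. -/
def S_MAINH : Prop := ∀ (q L : ℕ) (ε : ℝ), 0 < ε → 0 < L →
  ∃ (m n : Z3 → ℝ) (T : ℝ) (V : ℝ → Coef),
  (∀ k, m (-k) = -m k) ∧ (∀ k, n (-k) = -n k) ∧ (∀ k, |m k| + |n k| ≤ ε * len k ^ 16) ∧
  (∀ k, (¬ ∀ j, (L : ℤ) ∣ k j) → m k = 0 ∧ n k = 0) ∧
  (∀ k j, len k ^ q * ‖V 0 k j‖ ≤ ε) ∧ 0 < T ∧ IsSol m n T V ∧
  (∀ (T' : ℝ) (W : ℝ → Coef), 0 < T' → IsSol m n T' W → W 0 = V 0 →
    T' ≤ T ∧ ∀ t ∈ Ico 0 T', W t = V t) ∧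
  (∀ t ∈ Ico 0 T, energy (V t) = energy (V 0)) ∧
  ∀ M : ℝ, ∃ t ∈ Ico 0 T, M < enstr (V t)

theorem t_DIL2 : S_UNIQ → S_MAIN1 → S_MAINH := by
  intro hU hM q L ε hε hL
  have hL1 : (1 : ℝ) ≤ L := by exact_mod_cast hL
  have hL0 : (0 : ℝ) < L := by linarith
  obtain ⟨m, n, T, V, hm, hn, hC, hV0, hT, hsol, huniq, hen, hens⟩ :=
    Pool.Agent.Y331.EF.SCALE.t_SCALE hM q (ε / (L : ℝ) ^ q) (by positivity)
  have hLq : (1 : ℝ) ≤ (L : ℝ) ^ q := one_le_pow₀ hL1
  have hεq : ε / (L : ℝ) ^ q ≤ ε := div_le_self hε.le hLq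
  have hsol' := sol_ds hL hsol
  have hu' := hU (dm L m) (dm L n)
  refine ⟨dm L m, dm L n, T, fun t => ds L (V t), dm_neg hL hm, dm_neg hL hn, ?_, ?_, ?_, hT,
    hsol', ?_, ?_, ?_⟩
  · intro k
    rcases cases_mk (L := L) k with ⟨k', rfl⟩ | h'
    · rw [dm_mk hL, dm_mk hL, len_mk]
      have h1 : 0 ≤ len k' ^ 16 := pow_nonneg (len_nonneg _) _
      have h2 : len k' ^ 16 ≤ (L * len k') ^ 16 := by
        rw [mul_pow]
        exact le_mul_of_one_le_left h1 (one_le_pow₀ hL1)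
      calc |m k'| + |n k'| ≤ ε / (L : ℝ) ^ q * len k' ^ 16 := hC k'
        _ ≤ ε * (L * len k') ^ 16 := mul_le_mul hεq h2 h1 hε.le
    · rw [dm_not m h', dm_not n h', abs_zero, add_zero]
      exact mul_nonneg hε.le (pow_nonneg (len_nonneg _) _)
  · intro k hk
    exact ⟨dm_not m hk, dm_not n hk⟩
  · intro k j
    change len k ^ q * ‖ds L (V 0) k j‖ ≤ ε
    rcases cases_mk (L := L) k with ⟨k', rfl⟩ | h'
    · rw [ds_mk hL, len_mk]
      simp only
      rw [norm_mul, norm_inv, Complex.norm_real, Real.norm_eq_abs, abs_of_pos hL0, mul_pow]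
      have hLi : (L : ℝ)⁻¹ ≤ 1 := inv_le_one_of_one_le₀ hL1
      have h1 : 0 ≤ len k' ^ q * ‖V 0 k' j‖ :=
        mul_nonneg (pow_nonneg (len_nonneg _) _) (norm_nonneg _)
      calc (L : ℝ) ^ q * len k' ^ q * ((L : ℝ)⁻¹ * ‖V 0 k' j‖) =
          (L : ℝ) ^ q * ((L : ℝ)⁻¹ * (len k' ^ q * ‖V 0 k' j‖)) := by ring
        _ ≤ (L : ℝ) ^ q * (1 * (len k' ^ q * ‖V 0 k' j‖)) := by gcongr
        _ ≤ (L : ℝ) ^ q * (ε / (L : ℝ) ^ q) := by
          rw [one_mul]
          gcongr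
          exact hV0 k' j
        _ = ε := by field_simp
    · rw [ds_not (V 0) h']
      simp only [Pi.zero_apply, norm_zero, mul_zero]
      exact hε.le
  · intro T' W hT' hW hW0
    have hmin : 0 < min T T' := lt_min hT hT'
    have heq : ∀ t ∈ Ico 0 (min T T'), W t = ds L (V t) := by
      intro t ht
      exact (hu' (min T T') (dm_neg hL hm) (dm_neg hL hn)).1 W (fun t => ds L (V t))
        (sol_mono hW (min_le_right _ _)) (sol_mono hsol' (min_le_left _ _)) hW0 t ht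
    have hle : T' ≤ T := by
      by_contra hcon
      push Not at hcon
      rw [min_eq_left hcon.le] at heq
      obtain ⟨M, hM⟩ := hW.reg 4 T hcon
      obtain ⟨t, ht, hMt⟩ := hens (24 * M ^ 2 * ∑' k, wt k)
      have h1 := enstr_le (W t) M (hM t ⟨ht.1, ht.2.le⟩)
      rw [heq t ht, enstr_ds hL] at h1
      linarith
    refine ⟨hle, fun t ht => heq t ?_⟩
    rw [min_eq_right hle]
    exact ht
  · intro t ht
    exact (hu' T (dm_neg hL hm) (dm_neg hL hn)).2 (fun t => ds L (V t)) hsol' t ht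
  · intro M
    obtain ⟨t, ht, hMt⟩ := hens M
    refine ⟨t, ht, ?_⟩
    rw [enstr_ds hL]
    exact hMt

end Pool.Agent.Y6.F
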