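import Pool.Agent.Y6.F.Main0
import Pool.Agent.Y141.EF.Paira
import Pool.Agent.Y884.EF.PairB
import Pool.Agent.Y6.F.Lvl
import Pool.Agent.Y532.EF.Chain
import Pool.Agent.Y258.EF.CH5
import Pool.Agent.Y614.EF.LOCR
import Pool.Agent.Y438.EF.Dil

/-! Assembly: the Euler equations with a skew-adjoint Fourier multiplier of finite order. -/

set_option autoImplicit false

namespace Pool.Agent.Y6.F

theorem t_CHAIN : S_CHAIN :=
  Pool.Agent.Y532.EF.Chain.t_CHAIN (Pool.Agent.Y6.F.Lvl.t_LVL Pool.Agent.Y141.EF.Paira.t_PAIRA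
    (Pool.Agent.Y884.EF.PairB.t_PAIRB Pool.Agent.Y141.EF.Paira.t_PAIRA))

theorem t_MAIN1 : S_MAIN1 :=
  main1_of t_CHAIN Pool.Agent.Y258.EF.CH5.t_PERSR Pool.Agent.Y614.EF.Locr.t_LOCR

theorem t_MAING : S_MAING :=
  Pool.Agent.Y438.EF.DIL.t_DIL Pool.Agent.Y576.EF.Uniq.t_UNIQ t_MAIN1

end Pool.Agent.Y6.F
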