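import Pool.Agent.Y6.F.Stm

/-! Further statements: uniqueness for all multipliers, dilation. -/

open Set Filter Topology
open scoped ComplexConjugate

set_option autoImplicit false

namespace Pool.Agent.Y6.F

open Pool.Agent.Y6.M (qd mq Kz Ker Adm Dat TSol Wt KSol cX cY Uth εc x0 Mains MDat Z3 C3 Coef dt cr
  cj kc nsq len adv leray Kop IsField IsSol energy enstr Md hs br Frame cK sgz)

/-- uniqueness and energy conservation for every skew-adjoint multiplier -/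
def S_UNIQ : Prop := ∀ (m n : Z3 → ℝ) (T : ℝ), (∀ k, m (-k) = -m k) → (∀ k, n (-k) = -n k) →
  (∀ V W : ℝ → Coef, IsSol m n T V → IsSol m n T W → V 0 = W 0 → ∀ t ∈ Ico 0 T, V t = W t) ∧
  ∀ V : ℝ → Coef, IsSol m n T V → ∀ t ∈ Ico 0 T, energy (V t) = energy (V 0)

/-- The main theorem: the multiplier has order 16, is as small as we like and acts only on
frequencies `≥ R`, and the initial data are as small as we like. -/
def S_MAING : Prop := ∀ (q : ℕ) (ε R : ℝ), 0 < ε → ∃ (m n : Z3 → ℝ) (T : ℝ) (V : ℝ → Coef),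
  (∀ k, m (-k) = -m k) ∧ (∀ k, n (-k) = -n k) ∧ (∀ k, |m k| + |n k| ≤ ε * len k ^ 16) ∧
  (∀ k, len k < R → m k = 0 ∧ n k = 0) ∧
  (∀ k j, len k ^ q * ‖V 0 k j‖ ≤ ε) ∧ 0 < T ∧ IsSol m n T V ∧
  (∀ (T' : ℝ) (W : ℝ → Coef), 0 < T' → IsSol m n T' W → W 0 = V 0 →
    T' ≤ T ∧ ∀ t ∈ Ico 0 T', W t = V t) ∧
  (∀ t ∈ Ico 0 T, energy (V t) = energy (V 0)) ∧
  ∀ M : ℝ, ∃ t ∈ Ico 0 T, M < enstr (V t)

/-- dilation: `λ V(λ L t, L x)`, `L` a positive integer -/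
def S_DIL : Prop := S_UNIQ → S_MAIN1 → S_MAING

end Pool.Agent.Y6.F
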