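import Pool.Agent.Y6.F.Blow2
import Pool.Agent.Y6.F.Stm2
import Pool.Agent.Y6.F.Chn
import Pool.Agent.Y153.EM.Gal
import Pool.Agent.Y154.EM.UNI
import Pool.Agent.Y363.EF.LV
import Pool.Agent.Y710.EF.CODE
import Pool.Agent.Y932.EF.Sumsa
import Pool.Agent.Y261.EF.SumsB
import Pool.Agent.Y287.EF.VEC
import Pool.Agent.Y344.EF.Chn
import Pool.Agent.Y983.EF.KERM
import Pool.Agent.Y37.EF.Tab
import Pool.Agent.Y67.EF.WTM
import Pool.Agent.Y949.EF.Datm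
import Pool.Agent.Y287.EF.GAP
import Pool.Agent.Y287.EF.LAT
import Pool.Agent.Y592.EF.Env
import Pool.Agent.Y550.EF.Rate
import Pool.Agent.Y180.EF.ST0
import Pool.Agent.Y430.EF.ST1
import Pool.Agent.Y312.EF.St2
import Pool.Agent.Y907.EF.ST3
import Pool.Agent.Y211.EF.ST4
import Pool.Agent.Y407.EF.PRT
import Pool.Agent.Y44.EF.IBP
import Pool.Agent.Y44.EF.MS
import Pool.Agent.Y475.EF.Btc
import Pool.Agent.Y38.EF.LIMR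
import Pool.Agent.Y44.EF.UC
import Pool.Agent.Y876.EF.Ph3
import Pool.Agent.Y576.EF.Uniq

/-! Assembly: the Euler equations with a skew-adjoint Fourier multiplier of finite order. -/

set_option autoImplicit false

namespace Pool.Agent.Y6.F

open Pool.Agent.Y6.M (C3 Md Frame)

theorem t_SUMS : S_SUMS :=
  ⟨Pool.Agent.Y932.EF.Sumsa.t_SUMSa Pool.Agent.Y363.EF.LV.t_LV,
    Pool.Agent.Y261.EF.SUMSb.t_SUMSb Pool.Agent.Y363.EF.LV.t_LV⟩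

theorem t_STall : ∀ j ≤ 4, S_ST j := by
  intro j hj
  interval_cases j
  · exact Pool.Agent.Y180.EF.ST0.t_ST0
  · exact Pool.Agent.Y430.EF.ST1.t_ST1
  · exact Pool.Agent.Y312.EF.St2.t_ST2
  · exact Pool.Agent.Y907.EF.ST3.t_ST3
  · exact Pool.Agent.Y211.EF.ST4.t_ST4

theorem ctx_of (hC : S_CHAIN) (hP : S_PERSR) (hL : S_LOCR) (h : Md → C3) (hf : Frame h) :
    Ctx h where
  lv := Pool.Agent.Y363.EF.LV.t_LV
  envl := Pool.Agent.Y592.EF.t_ENV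
  ms := Pool.Agent.Y44.EF.MS.t_MS
  ker := Pool.Agent.Y983.EF.KERM.t_KERM Pool.Agent.Y363.EF.LV.t_LV
    Pool.Agent.Y710.EF.CODE.t_CODE t_SUMS h hf
  chn := Pool.Agent.Y344.EF.CHN.t_CHN Pool.Agent.Y287.EF.VEC.t_VEC h hf
  mains := Pool.Agent.Y37.EF.Tab.t_TAB Pool.Agent.Y363.EF.LV.t_LV t_SUMS h hf
  wt := Pool.Agent.Y67.EF.WTM.t_WTM Pool.Agent.Y363.EF.LV.t_LV Pool.Agent.Y710.EF.CODE.t_CODE h hf
  dat := (Pool.Agent.Y949.EF.Datm.t_DATM Pool.Agent.Y363.EF.LV.t_LV).1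
  mdat := (Pool.Agent.Y949.EF.Datm.t_DATM Pool.Agent.Y363.EF.LV.t_LV).2
  btc := Pool.Agent.Y475.EF.BTC.t_BTC Pool.Agent.Y363.EF.LV.t_LV Pool.Agent.Y710.EF.CODE.t_CODE
    Pool.Agent.Y592.EF.t_ENV Pool.Agent.Y550.EF.Rate.t_RATE Pool.Agent.Y287.EF.GAP.t_GAP
    Pool.Agent.Y44.EF.IBP.t_IBP Pool.Agent.Y44.EF.MS.t_MS t_SUMS Pool.Agent.Y287.EF.VEC.t_VEC
    Pool.Agent.Y287.EF.LAT.t_LAT t_STall Pool.Agent.Y983.EF.KERM.t_KERM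
    Pool.Agent.Y949.EF.Datm.t_DATM h hf
  prt := Pool.Agent.Y407.EF.PRT.t_PRT Pool.Agent.Y550.EF.Rate.t_RATE
    Pool.Agent.Y363.EF.LV.t_LV Pool.Agent.Y710.EF.CODE.t_CODE t_SUMS Pool.Agent.Y287.EF.VEC.t_VEC
    Pool.Agent.Y287.EF.LAT.t_LAT Pool.Agent.Y592.EF.t_ENV h hf
  code := Pool.Agent.Y710.EF.CODE.t_CODE
  chain := hC
  pers := hP
  loc := hL
  uc := Pool.Agent.Y44.EF.UC.t_UC

theorem main1_of (hC : S_CHAIN) (hP : S_PERSR) (hL : S_LOCR) : S_MAIN1 :=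
  Pool.Agent.Y876.EF.Ph3.t_PH3 Pool.Agent.Y363.EF.LV.t_LV Pool.Agent.Y287.EF.GAP.t_GAP
    Pool.Agent.Y710.EF.CODE.t_CODE Pool.Agent.Y949.EF.Datm.t_DATM
    (t_BLOWF_of (ctx_of hC hP hL) Pool.Agent.Y153.EM.t_GAL Pool.Agent.Y38.EF.LIMR.t_LIMR
      Pool.Agent.Y154.EM.UNI.t_UNI)

end Pool.Agent.Y6.F
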