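import Pool.Agent.Y6.F.Main
import Pool.Agent.Y6.F.Dil2

/-! Assembly, with the dilation. -/

set_option autoImplicit false

namespace Pool.Agent.Y6.F

theorem t_MAINH : S_MAINH := t_DIL2 Pool.Agent.Y576.EF.Uniq.t_UNIQ t_MAIN1

end Pool.Agent.Y6.F
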